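import Pool.Agent.Y34.EL.Stm
import Pool.Agent.Y34.HB.Basic
import Pool.Agent.Y155.HB.Slab

/-!
# Elements with positive translation length have an axis (block AXIS of project EL)
-/

set_option autoImplicit false

universe u v

open Metric Set Filter Topology
open Pool.Agent.TH60.FP Pool.Agent.Y34.HB Pool.Agent.Y34.EL Pool.Agent.Y155.HB

namespace Pool.Agent.Y219.EL

/-- distance of two points on a segment -/
lemma dv_dist {X : Type u} [MetricSpace X] {p q : X} {l l' : ℝ} {m m' : X} (h : Dv p q l m)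
    (h' : Dv p q l' m') (h0 : 0 ≤ l) (h1 : l' ≤ 1) (hl : l ≤ l') :
    dist m m' = (l' - l) * dist p q := by
  have hD : 0 ≤ dist p q := dist_nonneg
  have e1 := h.left h0
  have e2 := h'.right h1
  have e3 : dist m' p ≤ l' * dist p q := by
    rw [dist_comm]
    exact h'.left (h0.trans hl)
  apply le_antisymm
  · have h2 := h m'
    have e4 : dist m' p ^ 2 ≤ (l' * dist p q) ^ 2 := pow_le_pow_left₀ dist_nonneg e3 2
    have e5 : dist m' q ^ 2 ≤ ((1 - l') * dist p q) ^ 2 := pow_le_pow_left₀ dist_nonneg e2 2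
    have e6 : (1 - l) * dist m' p ^ 2 ≤ (1 - l) * (l' * dist p q) ^ 2 :=
      mul_le_mul_of_nonneg_left e4 (by linarith)
    have e7 : l * dist m' q ^ 2 ≤ l * ((1 - l') * dist p q) ^ 2 :=
      mul_le_mul_of_nonneg_left e5 h0
    rw [dist_comm m m']
    refine le_of_sq' (mul_nonneg (by linarith) hD) ?_
    have e8 : (1 - l) * (l' * dist p q) ^ 2 + l * ((1 - l') * dist p q) ^ 2 -
        l * (1 - l) * dist p q ^ 2 = ((l' - l) * dist p q) ^ 2 := by ring
    linarith
  · have h3 := dist_triangle4 p m m' q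
    nlinarith

section

variable {X : Type u} [MetricSpace X] {G : Type v} [Group G] [MulAction G X]

/-- the displacement function of an element attains its minimum -/
lemma exists_min (hG : Geo X G) (g : G) (x : X) :
    ∃ y : X, ∀ z : X, dist y (g • y) ≤ dist z (g • z) := by
  classical
  have := hG.proper
  have := hG.isom
  have := hG.disc
  obtain ⟨K, hK, hcov⟩ := hG.cc
  set D : ℝ := dist x (g • x) with hD
  have hD0 : 0 ≤ D := dist_nonneg
  set S : Set G := {k | (∃ h : G, k = h * g * h⁻¹) ∧ ∃ z ∈ K, dist z (k • z) ≤ D} with hS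
  have hfin : S.Finite := by
    have h1 := finite_disjoint_inter_image (Γ := G) hK (hK.cthickening (r := D))
    refine h1.subset ?_
    rintro k ⟨-, z, hz, hzk⟩
    rw [mem_setOf_eq]
    refine ⟨k • z, ⟨z, hz, rfl⟩, ?_⟩
    refine mem_cthickening_of_dist_le (k • z) z D K hz ?_
    rw [dist_comm]
    exact hzk
  have hmem : ∀ z : X, dist z (g • z) ≤ D → ∀ h : G, h • z ∈ K → h * g * h⁻¹ ∈ S ∧
      dist (h • z) ((h * g * h⁻¹) • h • z) = dist z (g • z) := by
    intro z hz h hh
    have e : dist (h • z) ((h * g * h⁻¹) • h • z) = dist z (g • z) := by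
      rw [mul_smul, mul_smul, inv_smul_smul, dist_smul]
    exact ⟨⟨⟨h, rfl⟩, h • z, hh, by rw [e]; exact hz⟩, e⟩
  obtain ⟨hx, hxK⟩ := hcov x
  have hKne : K.Nonempty := ⟨_, hxK⟩
  have hmin : ∀ k : G, ∃ z ∈ K, ∀ z' ∈ K, dist z (k • z) ≤ dist z' (k • z') := by
    intro k
    have hc : Continuous fun z : X => dist z (k • z) :=
      continuous_id.dist (isometry_smul X k).continuous
    obtain ⟨z, hz, hzm⟩ := hK.exists_isMinOn hKne hc.continuousOn
    exact ⟨z, hz, fun z' hz' => hzm hz'⟩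
  choose w hwK hw using hmin
  have hSne : hfin.toFinset.Nonempty :=
    ⟨hx * g * hx⁻¹, hfin.mem_toFinset.2 (hmem x le_rfl hx hxK).1⟩
  obtain ⟨k, hk, hkm⟩ := hfin.toFinset.exists_min_image (fun k => dist (w k) (k • w k)) hSne
  obtain ⟨⟨h, rfl⟩, -⟩ := hfin.mem_toFinset.1 hk
  have hmain : ∀ z : X, dist z (g • z) ≤ D →
      dist (h⁻¹ • w (h * g * h⁻¹)) (g • h⁻¹ • w (h * g * h⁻¹)) ≤ dist z (g • z) := by
    intro z hz
    obtain ⟨h', hh'⟩ := hcov z
    obtain ⟨hs, he⟩ := hmem z hz h' hh'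
    have h1 := hkm _ (hfin.mem_toFinset.2 hs)
    have h2 := hw (h' * g * h'⁻¹) (h' • z) hh'
    have e1 : dist (h⁻¹ • w (h * g * h⁻¹)) (g • h⁻¹ • w (h * g * h⁻¹)) =
        dist (w (h * g * h⁻¹)) ((h * g * h⁻¹) • w (h * g * h⁻¹)) := by
      rw [← dist_smul h, smul_inv_smul, smul_smul, smul_smul]
    rw [e1]
    rw [he] at h2
    exact h1.trans h2
  refine ⟨h⁻¹ • w (h * g * h⁻¹), fun z => ?_⟩
  rcases le_total (dist z (g • z)) D with hz | hz
  · exact hmain z hz
  · exact (hmain x le_rfl).trans hz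

/-- doubling -/
lemma doubling (hX : CN X) [IsIsometricSMul G X] (g : G) {δ : ℝ} (h : ∀ z : X, δ ≤ dist z (g • z)) :
    ∀ (k : ℕ) (z : X), 2 ^ k * δ ≤ dist z (g ^ 2 ^ k • z) := by
  intro k
  induction k with
  | zero =>
    intro z
    rw [pow_zero, pow_zero, one_mul, pow_one]
    exact h z
  | succ k ih =>
    intro z
    set f : G := g ^ 2 ^ k with hf
    have hff : g ^ 2 ^ (k + 1) = f * f := by rw [hf, ← pow_add, ← two_mul, ← pow_succ']
    obtain ⟨m, hm⟩ := hX z (f • z)
    have h1 : dist m (f • m) ≤ dist z (f • f • z) / 2 := by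
      refine half_side (a := f • z) (b := z) (e := f • f • z) (fun x => ?_) (fun x => ?_)
      · have := hm x
        rw [dist_comm (f • z) z]
        linarith
      · have := hm (f⁻¹ • x)
        rw [← dist_smul f (f⁻¹ • x) m, ← dist_smul f (f⁻¹ • x) z, ← dist_smul f (f⁻¹ • x) (f • z),
          smul_inv_smul, ← dist_smul f z (f • z)] at this
        exact this
    have h2 := ih m
    rw [hff, mul_smul, pow_succ]
    linarith

/-- distances in the orbit -/
lemma orbit_dist [IsIsometricSMul G X] (g : G) {y : X}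
    (h : ∀ k : ℕ, 2 ^ k * dist y (g • y) ≤ dist y (g ^ 2 ^ k • y)) (n : ℕ) :
    dist y (g ^ n • y) = n * dist y (g • y) := by
  have hup : ∀ n : ℕ, dist y (g ^ n • y) ≤ n * dist y (g • y) := by
    intro n
    induction n with
    | zero => simp
    | succ n ih =>
      have h1 := dist_triangle y (g ^ n • y) (g ^ (n + 1) • y)
      have h2 : dist (g ^ n • y) (g ^ (n + 1) • y) = dist y (g • y) := by
        rw [pow_succ, mul_smul, dist_smul]
      rw [h2] at h1
      push_cast
      linarith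
  apply le_antisymm (hup n)
  obtain ⟨m, hm⟩ := Nat.exists_eq_add_of_le (Nat.lt_two_pow_self (n := n)).le
  have h1 := h n
  rw [hm] at h1
  have h2 := dist_triangle y (g ^ n • y) (g ^ (n + m) • y)
  have h3 : dist (g ^ n • y) (g ^ (n + m) • y) = dist y (g ^ m • y) := by
    rw [pow_add, mul_smul, dist_smul]
  have h4 := hup m
  have h5 : (2 : ℝ) ^ n = n + m := by exact_mod_cast hm
  rw [h3] at h2
  rw [h5] at h1
  linarith

lemma orbit_zdist [IsIsometricSMul G X] (g : G) {y : X}
    (h : ∀ n : ℕ, dist y (g ^ n • y) = n * dist y (g • y)) (i j : ℤ) (hij : i ≤ j) :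
    dist (g ^ i • y) (g ^ j • y) = ((j : ℝ) - i) * dist y (g • y) := by
  obtain ⟨n, hn⟩ := Int.eq_ofNat_of_zero_le (sub_nonneg.2 hij)
  have e : j = i + n := by omega
  have h1 : dist (g ^ i • y) (g ^ j • y) = dist y (g ^ n • y) := by
    rw [e, zpow_add, mul_smul, dist_smul, zpow_natCast]
  rw [h1, h n, e]
  push_cast
  ring

end

theorem t_axis : S_AXIS.{u, v} := by
  intro X _ G _ _ hG g x κ hκ hx
  have := hG.proper
  have := hG.isom
  obtain ⟨y, hy⟩ := exists_min hG g x
  set δ : ℝ := dist y (g • y) with hδ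
  -- the displacement is positive
  have hδ0 : 0 < δ := by
    have hup : ∀ n : ℕ, dist y (g ^ n • y) ≤ n * δ := by
      intro n
      induction n with
      | zero => simp
      | succ n ih =>
        have h1 := dist_triangle y (g ^ n • y) (g ^ (n + 1) • y)
        have h2 : dist (g ^ n • y) (g ^ (n + 1) • y) = δ := by
          rw [pow_succ, mul_smul, dist_smul]
        rw [h2] at h1
        push_cast
        linarith
    by_contra hcon
    push Not at hcon
    obtain ⟨n, hn⟩ := exists_nat_gt (2 * dist x y / κ)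
    rw [div_lt_iff₀ hκ] at hn
    have h1 := hx n
    have h2 := dist_triangle4 x y (g ^ n • y) (g ^ n • x)
    rw [dist_smul, dist_comm y x] at h2
    have h3 := hup n
    have h4 : (n : ℝ) * δ ≤ 0 := mul_nonpos_of_nonneg_of_nonpos (Nat.cast_nonneg _) hcon
    linarith
  have horb := orbit_dist g (doubling hG.cn g hy · y)
  have hz := orbit_zdist g horb
  rw [← hδ] at hz
  -- the segment
  have hseg : ∀ s : ℝ, ∃ m : X, 0 ≤ s → s ≤ δ → Dv y (g • y) (s / δ) m := by
    intro s
    by_cases h : 0 ≤ s ∧ s ≤ δ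
    · obtain ⟨m, hm⟩ := dv_exists hG.cn y (g • y) (s / δ) (div_nonneg h.1 hδ0.le)
        ((div_le_one hδ0).2 h.2)
      exact ⟨m, fun _ _ => hm⟩
    · exact ⟨y, fun h1 h2 => absurd ⟨h1, h2⟩ h⟩
  choose w hw using hseg
  have hww : ∀ s t : ℝ, 0 ≤ s → s ≤ t → t ≤ δ → dist (w s) (w t) = t - s := by
    intro s t hs hst ht
    rw [dv_dist (hw s hs (hst.trans ht)) (hw t (hs.trans hst) ht) (div_nonneg hs hδ0.le)
      ((div_le_one hδ0).2 ht) (div_le_div_of_nonneg_right hst hδ0.le), ← hδ, ← sub_div,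
      div_mul_cancel₀ _ hδ0.ne']
  have hyw : ∀ s : ℝ, 0 ≤ s → s ≤ δ → dist y (w s) ≤ s := by
    intro s hs hsδ
    have h1 := (hw s hs hsδ).left (div_nonneg hs hδ0.le)
    rwa [← hδ, div_mul_cancel₀ _ hδ0.ne'] at h1
  have hgw : ∀ s : ℝ, 0 ≤ s → s ≤ δ → dist (w s) (g • y) ≤ δ - s := by
    intro s hs hsδ
    have h1 := (hw s hs hsδ).right ((div_le_one hδ0).2 hsδ)
    rwa [← hδ, sub_mul, one_mul, div_mul_cancel₀ _ hδ0.ne'] at h1
  -- the axis
  set i : ℝ → ℤ := fun t => ⌊t / δ⌋ with hi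
  set c : ℝ → X := fun t => g ^ i t • w (t - i t * δ) with hc
  have hi1 : ∀ t, 0 ≤ t - i t * δ := by
    intro t
    have h1 : (i t : ℝ) ≤ t / δ := Int.floor_le _
    rw [le_div_iff₀ hδ0] at h1
    linarith
  have hi2 : ∀ t, t - i t * δ ≤ δ := by
    intro t
    have h1 : t / δ < i t + 1 := Int.lt_floor_add_one _
    rw [div_lt_iff₀ hδ0] at h1
    linarith
  have hle : ∀ s t : ℝ, s ≤ t → dist (c s) (c t) = t - s := by
    intro s t hst
    have hij : i s ≤ i t := Int.floor_le_floor (div_le_div_of_nonneg_right hst hδ0.le)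
    rcases hij.eq_or_lt with h | h
    · show dist (g ^ i s • w (s - i s * δ)) (g ^ i t • w (t - i t * δ)) = t - s
      rw [← h, dist_smul, hww _ _ (hi1 s) (by linarith) (by rw [h]; exact hi2 t)]
      ring
    · have hcs1 : dist (g ^ i s • y) (c s) ≤ s - i s * δ := by
        show dist (g ^ i s • y) (g ^ i s • w (s - i s * δ)) ≤ _
        rw [dist_smul]
        exact hyw _ (hi1 s) (hi2 s)
      have hcs2 : dist (c s) (g ^ (i s + 1) • y) ≤ δ - (s - i s * δ) := by
        show dist (g ^ i s • w (s - i s * δ)) (g ^ (i s + 1) • y) ≤ _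
        rw [zpow_add_one, mul_smul, dist_smul]
        exact hgw _ (hi1 s) (hi2 s)
      have hct1 : dist (g ^ i t • y) (c t) ≤ t - i t * δ := by
        show dist (g ^ i t • y) (g ^ i t • w (t - i t * δ)) ≤ _
        rw [dist_smul]
        exact hyw _ (hi1 t) (hi2 t)
      have hct2 : dist (c t) (g ^ (i t + 1) • y) ≤ δ - (t - i t * δ) := by
        show dist (g ^ i t • w (t - i t * δ)) (g ^ (i t + 1) • y) ≤ _
        rw [zpow_add_one, mul_smul, dist_smul]
        exact hgw _ (hi1 t) (hi2 t)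
      apply le_antisymm
      · have h1 := dist_triangle4 (c s) (g ^ (i s + 1) • y) (g ^ i t • y) (c t)
        have h2 := hz (i s + 1) (i t) h
        push_cast at h2
        rw [h2] at h1
        nlinarith
      · have h1 := dist_triangle4 (g ^ i s • y) (c s) (c t) (g ^ (i t + 1) • y)
        have h2 := hz (i s) (i t + 1) (by omega)
        push_cast at h2
        rw [h2] at h1
        nlinarith
  refine ⟨δ, c, hδ0, Isometry.of_dist_eq fun s t => ?_, fun t => ?_⟩
  · rcases le_total s t with h | h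
    · rw [hle s t h, Real.dist_eq, abs_sub_comm, abs_of_nonneg (by linarith)]
    · rw [dist_comm, hle t s h, Real.dist_eq, abs_of_nonneg (by linarith)]
  · have h1 : i (t + δ) = i t + 1 := by
      show ⌊(t + δ) / δ⌋ = ⌊t / δ⌋ + 1
      rw [add_div, div_self hδ0.ne', Int.floor_add_one]
    show g • g ^ i t • w (t - i t * δ) = g ^ i (t + δ) • w (t + δ - i (t + δ) * δ)
    rw [h1, add_comm (i t) 1, zpow_add, zpow_one, mul_smul]
    congr 3
    push_cast
    ring

end Pool.Agent.Y219.EL
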